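import Pool.Agent.Helper64.BKA.Stmts

/-!
# CYC: Artin induction
Indicator functions of subgroups are integral combinations of indicator functions of cyclic
subgroups.
-/

set_option autoImplicit false

open scoped Classical

namespace BKA

namespace CYC82

variable {G : Type} [Group G] [Fintype G]

/-- an integral combination of indicator functions of cyclic subgroups -/
def Rep (φ : G → ℤ) : Prop :=
  ∃ m : Subgroup G → ℤ, (∀ B : Subgroup G, ¬ IsCyclic B → m B = 0) ∧
    ∀ y, φ y = ∑ B : Subgroup G, m B * (if y ∈ B then 1 else 0)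

lemma rep_sub {φ ψ : G → ℤ} (h : Rep φ) (h' : Rep ψ) : Rep (fun y => φ y - ψ y) := by
  obtain ⟨m, hm, h1⟩ := h
  obtain ⟨m', hm', h1'⟩ := h'
  refine ⟨fun B => m B - m' B, fun B hB => by simp [hm B hB, hm' B hB], fun y => ?_⟩
  simp only [h1, h1', sub_mul, Finset.sum_sub_distrib]

lemma rep_zero : Rep (fun _ : G => (0 : ℤ)) :=
  ⟨fun _ => 0, fun _ _ => rfl, fun y => by simp⟩

lemma rep_add {φ ψ : G → ℤ} (h : Rep φ) (h' : Rep ψ) : Rep (fun y => φ y + ψ y) := by
  have := rep_sub h (rep_sub rep_zero h')
  simpa using this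

lemma rep_sum {ι : Type} (s : Finset ι) (φ : ι → G → ℤ) (h : ∀ i ∈ s, Rep (φ i)) :
    Rep (fun y => ∑ i ∈ s, φ i y) := by
  induction s using Finset.induction_on with
  | empty => simpa using (rep_zero (G := G))
  | insert a s ha ih =>
    simp only [Finset.sum_insert ha]
    exact rep_add (h a (Finset.mem_insert_self a s))
      (ih fun i hi => h i (Finset.mem_insert_of_mem hi))

lemma rep_cyc (C : Subgroup G) (hC : IsCyclic C) : Rep (fun y => if y ∈ C then 1 else 0) := by
  refine ⟨fun B => if B = C then 1 else 0, fun B hB => ?_, fun y => ?_⟩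
  · have h : B ≠ C := by
      rintro rfl
      exact hB hC
    simp [h]
  · rw [Finset.sum_eq_single C]
    · simp
    · intro B _ hB
      simp [hB]
    · intro h
      exact absurd (Finset.mem_univ C) h

lemma rep_gen (n : ℕ) : ∀ C : Subgroup G, Nat.card C ≤ n → IsCyclic C →
    Rep (fun y => if Subgroup.zpowers y = C then 1 else 0) := by
  induction n with
  | zero =>
    intro C h _
    have : 0 < Nat.card C := Nat.card_pos
    omega
  | succ n ih =>
    intro C h hC
    have key : (fun y : G => if Subgroup.zpowers y = C then (1 : ℤ) else 0) =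
        fun y => (if y ∈ C then 1 else 0) -
          ∑ B ∈ Finset.univ.filter (fun B : Subgroup G => B < C),
            if Subgroup.zpowers y = B then 1 else 0 := by
      funext y
      rw [Finset.sum_ite_eq]
      simp only [Finset.mem_filter, Finset.mem_univ, true_and, ← Subgroup.zpowers_le]
      by_cases h1 : Subgroup.zpowers y = C
      · simp [h1]
      · by_cases h2 : Subgroup.zpowers y ≤ C
        · simp [h1, h2, lt_of_le_of_ne h2 h1]
        · have h3 : ¬ Subgroup.zpowers y < C := fun h => h2 h.le
          simp [h1, h2, h3]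
    rw [key]
    refine rep_sub (rep_cyc C hC) (rep_sum _ _ ?_)
    intro B hB
    have hlt : B < C := (Finset.mem_filter.mp hB).2
    refine ih B ?_ ?_
    · have h1 : Nat.card B ≤ Nat.card C := Subgroup.card_le_of_le hlt.le
      have h2 : Nat.card B ≠ Nat.card C := fun h =>
        hlt.ne (Subgroup.eq_of_le_of_card_ge hlt.le h.ge)
      omega
    · exact isCyclic_of_injective (Subgroup.inclusion hlt.le) (Subgroup.inclusion_injective hlt.le)

lemma rep_all (H : Subgroup G) : Rep (fun y => if y ∈ H then 1 else 0) := by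
  have key : (fun y : G => if y ∈ H then (1 : ℤ) else 0) =
      fun y => ∑ C ∈ Finset.univ.filter (fun C : Subgroup G => C ≤ H ∧ IsCyclic C),
        if Subgroup.zpowers y = C then 1 else 0 := by
    funext y
    rw [Finset.sum_ite_eq]
    have hc : IsCyclic (Subgroup.zpowers y) := inferInstance
    simp only [Finset.mem_filter, Finset.mem_univ, true_and, Subgroup.zpowers_le, hc, and_true]
  rw [key]
  refine rep_sum _ _ ?_
  intro C hC
  exact rep_gen _ C le_rfl (Finset.mem_filter.mp hC).2.2

lemma card_ind {R : Type} [Field R] [CharZero R] (H : Subgroup G) (g : G) :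
    (Nat.card H : R) * ind H (1 : H →* Rˣ) g = ∑ x : G, if x⁻¹ * g * x ∈ H then (1 : R) else 0 := by
  have h0 : (Nat.card H : R) ≠ 0 := by
    have : 0 < Nat.card H := Nat.card_pos
    exact_mod_cast this.ne'
  unfold ind
  rw [← mul_assoc, mul_inv_cancel₀ h0, one_mul]
  refine Finset.sum_congr rfl fun x _ => ?_
  unfold ext
  by_cases h : x⁻¹ * g * x ∈ H <;> simp [h]

end CYC82

open CYC82 in
theorem st_CYC : ST_CYC := by
  intro G R _ _ _ _ f hf hC H
  obtain ⟨m, hm, h1⟩ := rep_all H
  have h2 := hf (Fintype.card (Subgroup G)) (fun i => (Fintype.equivFin (Subgroup G)).symm i)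
    (fun _ => 1) (fun i => m ((Fintype.equivFin (Subgroup G)).symm i) *
      (Nat.card ((Fintype.equivFin (Subgroup G)).symm i) : ℤ) -
      (if (Fintype.equivFin (Subgroup G)).symm i = H then (Nat.card H : ℤ) else 0)) ?_
  · rw [Equiv.sum_comp (Fintype.equivFin (Subgroup G)).symm (fun B : Subgroup G =>
      (m B * (Nat.card B : ℤ) - (if B = H then (Nat.card H : ℤ) else 0)) * f B 1)] at h2
    have h3 : ∀ B : Subgroup G,
        (m B * (Nat.card B : ℤ) - (if B = H then (Nat.card H : ℤ) else 0)) * f B 1 =
          - (if B = H then (Nat.card H : ℤ) * f H 1 else 0) := by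
      intro B
      by_cases hB : IsCyclic B
      · have h4 := hC B hB
        by_cases hBH : B = H
        · subst hBH
          simp [h4]
        · simp [h4, hBH]
      · have h4 := hm B hB
        by_cases hBH : B = H
        · subst hBH
          simp [h4]
        · simp [h4, hBH]
    simp only [h3, Finset.sum_neg_distrib, Finset.sum_ite_eq', Finset.mem_univ, if_true] at h2
    have h5 : (Nat.card H : ℤ) ≠ 0 := by
      have : 0 < Nat.card H := Nat.card_pos
      exact_mod_cast this.ne'
    have h6 : (Nat.card H : ℤ) * f H 1 = 0 := by linarith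
    exact (mul_eq_zero.mp h6).resolve_left h5
  · intro g
    rw [Equiv.sum_comp (Fintype.equivFin (Subgroup G)).symm (fun B : Subgroup G =>
      (((m B * (Nat.card B : ℤ) - (if B = H then (Nat.card H : ℤ) else 0) : ℤ)) : R) *
        ind B (1 : B →* Rˣ) g)]
    have h3 : ∀ B : Subgroup G,
        (((m B * (Nat.card B : ℤ) - (if B = H then (Nat.card H : ℤ) else 0) : ℤ)) : R) *
          ind B (1 : B →* Rˣ) g = (∑ x : G, (m B : R) * if x⁻¹ * g * x ∈ B then (1 : R) else 0) -
            (if B = H then ∑ x : G, (if x⁻¹ * g * x ∈ H then (1 : R) else 0) else 0) := by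
      intro B
      rw [← Finset.mul_sum, ← card_ind B g, ← card_ind H g]
      by_cases hBH : B = H
      · subst hBH
        simp only [if_true]
        push_cast
        ring
      · simp only [hBH, if_false]
        push_cast
        ring
    simp only [h3, Finset.sum_sub_distrib, Finset.sum_ite_eq', Finset.mem_univ, if_true]
    rw [Finset.sum_comm, ← Finset.sum_sub_distrib]
    refine Finset.sum_eq_zero fun x _ => ?_
    have h4 := h1 (x⁻¹ * g * x)
    have h5 : ((if x⁻¹ * g * x ∈ H then (1 : ℤ) else 0 : ℤ) : R) =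
        ((∑ B : Subgroup G, m B * (if x⁻¹ * g * x ∈ B then 1 else 0) : ℤ) : R) := by
      rw [← h4]
    push_cast at h5
    rw [← h5]
    exact sub_self _

end BKA
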